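import Mathlib
import Pool.Agent.H812.Tm.Asm6
import Pool.Graph.R_seed8.W811.Dos.Stm

/-!
# Invariance of the dimension of the density of states under the Gauss map: parts

Trace space points are `P3 = ⟨z, y, x⟩`, `orb d p m` is the orbit, `lin lam E = ⟨1, E/2, (E-lam)/2⟩`
the starting line, `U`, `ze`, `Yf`, `sg`, `sl`, `Alive`, `shd` are from `Tm.Defs`, `Tm.Spec2`;
`fo d n`, `go d n` (stage map and inverse in coordinates), `borb d n` (inverse of `orb d · n`),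
`WS`, `Leaf`, `Lam`, `mem_WS_of_alive`, ... from `Tm.Asm1`, ..., `Tm.Asm6`.
Everything of `Tm` (`SCoord`, `SDt`, `SLow`, `SLip`, `SField`, ...) may be assumed.
-/

set_option autoImplicit false

open Real Filter Topology Set MeasureTheory
open scoped ContDiff ENNReal

namespace Pool.Agent.H812.Gi

open Pool.Agent.W811.Stu Pool.Agent.H812.Tm Pool.Agent.W811.Dos

/-- the standing hypotheses -/
structure Cx (δ κ : ℝ) (θ : ℝ → ℝ) (d : ℕ → ℕ) : Prop where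
  hδ : δ ≠ 0
  hκ1 : 1 < κ
  hκ : κ < cc δ
  hθ : Cut κ θ
  hd : ∀ k, 1 ≤ d k

/-! ### level curves -/

/-- **Slopes of level functions are close to the field** also at points which are not alive.
Proof: `sg - sl Y_M = ∑_{l ≥ M} Hf l` at points with `|Y_M| ≤ 1` (`Pool.Agent.H249.TmSField.tele`:
the telescoping identity used in the proof of `SField`).  First summand of `Hf l`: only if
`|Y_l|, |Y_{l+1}| ≤ κ`: `|dt Y_M| |sl Y_{l+1} - sl Y_l| ≤ C |dt Y_M|/(|dt Y_l||dt Y_{l+1}|)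
≤ C'/|dt Y_{l+1}| ≤ C'' 2^{-l/2}` (`SPair`, `SRG`, `SLow`).  Second summand: vanishes unless
`|Y_l| > 1` (so `l > M`) and only those `k` with `|T_{l,k}|, |T_{l,k+1}| ≤ κ` count;
`|dt Y_M| ≤ C |dt T_{l,k}|` (`SRG` for the updated digits, `k ≥ 1`, or `T_{l,0} = Y_{l-1}`), so the
`k`-th term times `|dt Y_M|` is at most `C'/|dt T_{l,k+1}|`; if `|Y_l| ≥ κ` this is
`≤ C''/(κ^k 2^{l/2})` by `SRun`, if `1 < |Y_l| < κ` at most `K + 1` values of `k` count (`SWin`). -/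
def GNear : Prop := ∀ (δ κ : ℝ) (θ : ℝ → ℝ) (d : ℕ → ℕ), Cx δ κ θ d → ∀ r : ℝ, r < 1 →
  ∃ C : ℝ, 0 < C ∧ ∀ M, 3 ≤ M → ∀ v : ℝ × ℝ, |v.1| ≤ r → |Yf δ d M v| ≤ 1 →
    |sg θ δ d v - sl (Yf δ d M) v| * |dt (Yf δ d M) v| ≤ C

/-- **Distance of zeros.** Proof: between two zeros of `f = Y_M (z, ·)` there is a point with
`|f| ≥ cc δ` (Rolle; `dt Y_M ≠ 0` where `|Y_M| < cc δ`).  By `SLag`, where `|f| ≤ cc/2`,
`|(1/f')'| ≤ 2/cc`.  Let `a = 1/|f'(ϑ₁)|`; if the first point `ϑ*` with `|f| = cc/2` had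
`|ϑ* - ϑ₁| < (cc/4) a` then `|f'| ≤ 2/a` in between, so `|f(ϑ*)| < cc/2`, a contradiction. -/
def GGap : Prop := ∀ (δ : ℝ) (d : ℕ → ℕ), δ ≠ 0 → (∀ k, 1 ≤ d k) → ∀ M, 2 ≤ M → ∀ z ϑ1 ϑ2 : ℝ,
  |z| < 1 → ϑ1 ≠ ϑ2 → Yf δ d M (z, ϑ1) = 0 → Yf δ d M (z, ϑ2) = 0 →
    cc δ / 4 ≤ |ϑ2 - ϑ1| * |dt (Yf δ d M) (z, ϑ1)|

/-- zero curves of the level function -/
def Lev (δ : ℝ) (d : ℕ → ℕ) (M : ℕ) (ϑ : ℝ → ℝ) : Prop :=
  ∀ z, |z| < 1 → HasDerivAt ϑ (sl (Yf δ d M) (z, ϑ z)) z ∧ Yf δ d M (z, ϑ z) = 0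

/-- **Zero curves.** (1) existence (`Pool.Agent.H551.TmLEAF.level`); (2) from `GNear`, `GGap` and the
Lipschitz continuity of `sg` in `ϑ` (`C¹` and periodic):
`|sl Y_M (z, ϑ2 z) - sl Y_M (z, ϑ1 z)| ≤ L |ϑ2 - ϑ1| + C/|dt Y_M (z,ϑ1)| + C/|dt Y_M (z,ϑ2)|
≤ C' |ϑ2 z - ϑ1 z|`, so the distance of two zero curves changes by a bounded factor (Gronwall);
(3) `SField` and Gronwall. -/
def GLevels : Prop := ∀ (δ κ : ℝ) (θ : ℝ → ℝ) (d : ℕ → ℕ), Cx δ κ θ d →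
  (∀ M, 3 ≤ M → ∀ v ∈ U, Yf δ d M v = 0 → ∃ ϑ, ϑ v.1 = v.2 ∧ Lev δ d M ϑ) ∧
  ∀ r : ℝ, r < 1 → ∃ K : ℝ, 0 < K ∧
    (∀ M, 3 ≤ M → ∀ ϑ1 ϑ2, Lev δ d M ϑ1 → Lev δ d M ϑ2 → ∀ z z' : ℝ, |z| ≤ r → |z'| ≤ r →
      |ϑ2 z - ϑ1 z| ≤ K * |ϑ2 z' - ϑ1 z'|) ∧
    (∀ M, 3 ≤ M → ∀ ϑ ψ, Lev δ d M ϑ → Leaf θ δ d ψ → ∀ z z' : ℝ, |z| ≤ r → |z'| ≤ r →
      |ϑ z - ψ z| ≤ K * (|ϑ z' - ψ z'| + 1 / 2 ^ (M / 2))) ∧
    (∀ M, 3 ≤ M → ∀ ϑ, Lev δ d M ϑ → ∀ z, |z| ≤ r →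
      |sl (Yf δ d M) (z, ϑ z) - sg θ δ d (z, ϑ z)| * 2 ^ (M / 2) ≤ K)

/-! ### transport of zeros between curves -/

/-- the curve `c` passes through the zero set of level `M` at `s` -/
def ZM (d : ℕ → ℕ) (M : ℕ) (c : ℝ → P3) (s : ℝ) : Prop := (orb d (c s) M).y = 0

/-- zeros of high level near `c s0` are transported injectively to zeros near `c' t0`, with a
Lipschitz inverse -/
def Tr (d : ℕ → ℕ) (c : ℝ → P3) (s0 : ℝ) (c' : ℝ → P3) (t0 : ℝ) : Prop :=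
  ∃ C : ℝ, 0 < C ∧ ∀ ε > 0, ∃ η > 0, ∃ M0 : ℕ, ∀ M ≥ M0, ∃ h : ℝ → ℝ,
    ∀ s, |s - s0| < η → ZM d M c s → |h s - t0| < ε ∧ ZM d M c' (h s) ∧
      ∀ s', |s' - s0| < η → ZM d M c s' → |s - s'| ≤ C * |h s - h s'|

/-- the vertical curve through `v` in the coordinates of stage `n` -/
noncomputable def vc (δ : ℝ) (d : ℕ → ℕ) (n : ℕ) (v : ℝ × ℝ) (t : ℝ) : P3 :=
  borb d n (ze δ (v.1, t))

/-- `v` are the coordinates of stage `n` of a point of the stable set -/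
def At (δ : ℝ) (d : ℕ → ℕ) (n : ℕ) (v : ℝ × ℝ) : Prop := v ∈ U ∧ Alive (shd d n) (ze δ v)

/-- **Sliding along a leaf** (from `GLevels`): follow the zero curves.  Reduce to `n = 0` by
`(orb d (vc δ d n v t) (n + M)).y = Yf δ (shd d n) M (v.1, t)` (`orb_add`, `orb_borb`).  For `M` large
and `(z, t)` near `(z, ψ z)` with `Y_M = 0` let `h t` be the value at `z'` of the zero curve
through `(z, t)`. -/
def GSlide : Prop := ∀ (δ κ : ℝ) (θ : ℝ → ℝ) (d : ℕ → ℕ), Cx δ κ θ d → ∀ (n : ℕ) (ψ : ℝ → ℝ),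
  Leaf θ δ (shd d n) ψ → ∀ z z' : ℝ, |z| < 1 → |z'| < 1 →
    Tr d (vc δ d n (z, ψ z)) (ψ z) (vc δ d n (z', ψ z')) (ψ z')

/-- the derivatives of the level functions along the curve are unbounded -/
def Unb (d : ℕ → ℕ) (c : ℝ → P3) (s0 : ℝ) : Prop :=
  ∀ C : ℝ, ∃ M, C < |deriv (fun s => (orb d (c s) M).y) s0|

/-- **Change of the transversal.**  In the coordinates of stage `n` the curve is
`τ s = Lam δ v.2 (fo d n (tp (c s)))` near `s0` (`C¹`), `τ s0 = v` (up to a period).  By `Unb` and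
`SLip` (`a dz + b dt = a (dz + sg dt) + (b - a sg) dt`) it is transversal to the leaf:
`m := (τ' s0).2 - sg v (τ' s0).1 ≠ 0`.  For `M` large and `s` near `s0` with `Y_M (τ s) = 0`, `h s` is
the value at `v.1` of the zero curve through `τ s`.  Lipschitz: if `ϑ1, ϑ2` are the zero curves
through `τ s, τ s'`, `F(u) = (τ u).2 - ϑ1 (τ u).1` has `|F'| ≥ |m|/2`, `F s = 0`,
`F s' = (ϑ2 - ϑ1)((τ s').1)`, and `GLevels`.  Conversely for `(v.1, t)` near `v` with `Y_M = 0` the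
zero curve `ϑ` through it meets `τ` (`F(u) = (τ u).2 - ϑ (τ u).1` is monotone near `s0` and small at
`s0`). -/
def GSw : Prop := ∀ (δ κ : ℝ) (θ : ℝ → ℝ) (d : ℕ → ℕ), Cx δ κ θ d →
  ∀ (n : ℕ) (v : ℝ × ℝ) (c : ℝ → P3) (s0 : ℝ), At δ d n v →
    ContDiffAt ℝ 1 (fun s => tp (c s)) s0 → (∀ᶠ s in 𝓝 s0, OnS δ (c s)) →
    orb d (c s0) n = ze δ v → Unb d c s0 →
    Tr d c s0 (vc δ d n v) v.2 ∧ Tr d (vc δ d n v) v.2 c s0

/-- **Vertical curves and starting lines are transversal** to the leaves.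
(1) `(orb d (vc δ d n v t) (n + M)).y = Yf δ (shd d n) M (v.1, t)` and `SLow` for the infinitely many
`M` with `|Y_M v| ≤ 1`.  (2) the derivative of `lin lam` is `⟨0, 1/2, 1/2⟩ = -(1/(2δ)) fV`,
`lam = 2 δ`, so the derivative is a multiple of `Vy d M (lin lam E)`, and `tLB` of the library
(`Pool.Agent.W811.Stu.tLB : TLB`).  Similarly for the curve `borb d n (lin (2 δ) ·)`. -/
def GUnb : Prop := ∀ (δ : ℝ) (d : ℕ → ℕ), δ ≠ 0 → (∀ k, 1 ≤ d k) →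
  (∀ n v, At δ d n v → Unb d (vc δ d n v) v.2) ∧
  (∀ n E, Alive (shd d n) (lin (2 * δ) E) → Unb d (fun s => borb d n (lin (2 * δ) s)) E)

/-- **Leaves are transversal to `{|z_j| ≤ 1}`, `z_j = const`.**  Proof: let
`u` be the image in the tangent space at `q = borb d n (ze δ v)` of the vector `(1, sg v)`, and
`u_j` its image at stage `j`.  If `u_j.z = 0` then `u_j = c • fV (orb d q j)` (`gX u.x + gB u.y = 0`, and
`(gX, gB) ≠ 0` where `|z| ≤ 1` on the surface), `c ≠ 0` as `u ≠ 0`.  So the derivative of `y_{j+M}` in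
the direction `u` is `c Vy (shd d j) M (orb d q j)`, `|..| ≥ |c| c0 2^{M/2}` (`tLB`) for infinitely many
`M` (`q` is in the stable set: `mem_WS_of_alive`, `alive_of_mem_WS`).  But it is bounded by `SLip`
(applied to the digits `shd d n`, for `j + M ≥ n`). -/
def GTv : Prop := ∀ (δ κ : ℝ) (θ : ℝ → ℝ) (d : ℕ → ℕ), Cx δ κ θ d →
  ∀ (n j : ℕ) (v : ℝ × ℝ), At δ d n v → |(orb d (borb d n (ze δ v)) j).z| ≤ 1 →
    fderiv ℝ (fun w => (orb d (borb d n (ze δ w)) j).z) v (1, sg θ δ (shd d n) v) ≠ 0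

/-- **Leaves near a point with `z_0 = 1` meet `{z_0 = 1}` and `{|z_0| < 1}`.**  Proof: by `GTv`
(`j = 0`) the derivative of `z_0` along the leaf through `v` is nonzero at `v`; by continuity
(`sg` is `C¹`) it has a constant sign and is bounded below in a neighbourhood, for all leaves. -/
def GHit : Prop := ∀ (δ κ : ℝ) (θ : ℝ → ℝ) (d : ℕ → ℕ), Cx δ κ θ d →
  ∀ (n : ℕ) (v : ℝ × ℝ), At δ d n v → |(borb d n (ze δ v)).z| = 1 → ∃ ρ > 0,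
    ∀ ψ, Leaf θ δ (shd d n) ψ → ∀ w, |w| < 1 → |w - v.1| < ρ → |ψ w - v.2| < ρ →
      (∃ z, |z| < 1 ∧ (borb d n (ze δ (z, ψ z))).z = (borb d n (ze δ v)).z) ∧
      (∃ z, |z| < 1 ∧ |(borb d n (ze δ (z, ψ z))).z| < 1)

/-! ### monotonicity and winding of leaves -/

/-- **Sign lemma.**  `y` is monotone along leaves.  Proof: for `M ≥ 2`, `|Y_M v| ≤ 1`, `|z| < cc`,
`|y| < cc`: the derivatives `D y_M (fV)` and `-sign (gX) D y_M (fH)` have the same sign (cone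
argument as for `cmpY`: data of `fV` are `(0, b0)`, those of `-sign (gX) fH` are `(a0, 0)` with `a0, b0`
in the same Lorentz cone; `D y_M ≠ 0` on `cone × cone` where `|y_M| < cc δ`, so
`D y_M (fV) + t D y_M (v) ≠ 0` for all `t ≥ 0`).  In coordinates `fV = -√(1-z²) ∂_ϑ`,
`fH = gX ∂_z + √(1-z²) (∂_z y) ∂_ϑ`, `gX = B √(1-z²) sin ϑ`, which gives
`0 ≤ sin ϑ (∂_z y + sl (Y_M) ∂_ϑ y)`; let `M → ∞` (`SField`, third conclusion). -/
def GSy : Prop := ∀ (δ κ : ℝ) (θ : ℝ → ℝ) (d : ℕ → ℕ), Cx δ κ θ d → ∀ v ∈ U,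
  Alive d (ze δ v) → |(ze δ v).y| < cc δ →
    0 ≤ sin v.2 * (dz (Yf δ d 0) v + sg θ δ d v * dt (Yf δ d 0) v)

/-- **Winding of leaves.**  Let `φ = arccos z` (so `z → 1` is `φ → 0`), `λ_j = π/2 + jπ`.
`y = B cos ϑ` is bounded along the leaf (`BddL`) and `B → ∞` as `|z| → 1`, so `cos ψ → 0` and `ψ` has
limits `λ_k` (`z → 1`), `λ_m` (`z → -1`).  By `GSy`, where `sin ψ > 0` and `|y| < cc`, `y` is
nonincreasing in `φ` (and nondecreasing where `sin ψ < 0`), so `ψ` cannot cross a line `λ_j` downwards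
(in the direction of increasing `φ`).  If `m < k`: then `m = k - 1` and `ψ ∈ [λ_{k-1}, λ_k]`; by
symmetry (`ϑ → ϑ + π` changes the signs of `x, y`) `k = 0`, `y ≥ 0`.  At the first `φ*` with
`ψ = 0` `y = B ≥ cc`; on `(0, φ*)` `sin ψ > 0`, and `y ≥ cc` there (else `y` would stay `< cc` up to
`φ*`).  So for `z` near `1` `y ≥ cc > 1` and `x = z y + √(1+δ²-z²) sin ψ > 1`: but `Alive`, `|y_0| > 1`,
`|z| ≤ 1` imply `|t_k| ≤ 1` for `k ≤ d 0` (`THyp`, `Pool.Agent.W216.Stu.Hyp.hyp`, `κ := 1`), in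
particular `|x| ≤ 1`. -/
def GWind : Prop := ∀ (δ κ : ℝ) (θ : ℝ → ℝ) (d : ℕ → ℕ), Cx δ κ θ d → ∀ ψ, Leaf θ δ d ψ →
  ∃ k m : ℤ, k ≤ m ∧ Tendsto ψ (𝓝[<] 1) (𝓝 (π / 2 + k * π)) ∧
    Tendsto ψ (𝓝[>] (-1)) (𝓝 (π / 2 + m * π))

/-- **Stage one.** (from `GWind` for the digits `shd d 1`, `GTv`.)  With `z = cos φ`,
`(borb d 1 (ze δ (z, ϑ))).z = B cos (ϑ + d_0 φ)`.  Suppose `|z_0| ≥ 1` along the whole leaf.  The phase
`Ψ = ψ + d_0 φ` has the limits `λ_k` and `λ_{m + d_0}`; if `m + d_0 ≥ k + 2` it takes the value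
`λ_{k+1}`, i.e. `z_0 = 0`: impossible.  So `d_0 = 1`, `m = k`.  Suppose `|y| ≥ 1` (`y = Yf _ _ 0`) along
the whole leaf, `y = τ|y|`, `τ = ±1`.  `x = z y + √(1+δ²-z²) sin ψ`, `sin ψ → (-1)^k` at both ends.  If
`τ (-1)^k = 1` then `|x| > 1` for `z` near `1`, otherwise for `z` near `-1`; since `|y| > 1` and `Alive`
imply `|x| ≤ 1` (as in `GWind`), `|y| = 1` on an interval, which contradicts `GTv` (for the digits
`shd d 1`, `n = 0`, `j = 1`: `z_1 = y`, derivative zero). -/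
def GCa : Prop := ∀ (δ κ : ℝ) (θ : ℝ → ℝ) (d : ℕ → ℕ), Cx δ κ θ d → ∀ ψ,
  Leaf θ δ (shd d 1) ψ → (∃ z, |z| < 1 ∧ |(borb d 1 (ze δ (z, ψ z))).z| < 1) ∨
    (d 0 = 1 ∧ ∃ z, |z| < 1 ∧ |Yf δ (shd d 1) 0 (z, ψ z)| < 1)

/-- **Stage two.** If `d 0 = 1`, `(borb d 2 (ze δ (z, ϑ))).z = B cos (ϑ + (d_1 + 1) φ)`, `z = cos φ`;
its phase runs along a leaf from `λ_k` to `λ_{m + d_1 + 1}`, `m ≥ k` (`GWind` for `shd d 2`), so takes
the value `λ_{k+1}`. -/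
def GCb : Prop := ∀ (δ κ : ℝ) (θ : ℝ → ℝ) (d : ℕ → ℕ), Cx δ κ θ d → d 0 = 1 → ∀ ψ,
  Leaf θ δ (shd d 2) ψ → ∃ z, |z| < 1 ∧ (borb d 2 (ze δ (z, ψ z))).z = 0

/-! ### chains -/

/-- **From stage `n + 1` to stage `n`.** (from `GCa`, `GCb`, `GSlide`, `GSw`, `GUnb`, `SLeaf`; first
`n = 0`).  Leaf `ψ` through `v` (`SLeaf`); by `GCa` it contains a point with `|z_0| < 1`: slide to it,
and change to the vertical curve of stage `0` there; or `d 0 = 1` and it contains a point with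
`|z_2| = |y_1| < 1`: slide, change to stage `2`, slide along the leaf of stage `2` to a point with
`z_0 = 0` (`GCb`), change to stage `0`.  For general `n`: the statement for `shd d n`, and
`ZM d (n + M) c s ↔ ZM (shd d n) M (fun s => orb d (c s) n) s`. -/
def GDown : Prop := ∀ (δ κ : ℝ) (θ : ℝ → ℝ) (d : ℕ → ℕ), Cx δ κ θ d → ∀ (n : ℕ) (v : ℝ × ℝ),
  At δ d (n + 1) v → ∃ w, At δ d n w ∧ Tr d (vc δ d (n + 1) v) v.2 (vc δ d n w) w.2

/-- **From stage `n` to the starting line of stage `n`.** First `n = 0`.  Let `ψ` be the leaf through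
`v`.  The points `ze δ (z, ψ z)` are bounded (`BddL`), so there are `z_k → 1` with
`ze δ (z_k, ψ z_k) → p`, `p.z = 1`, `OnS δ p`, `p` is alive.  So some `m ≥ 1` has `|z_m(p)| < 1`
(`exists_strip`).  By `GHit` for `p` (stage `m`) the leaf of stage `m` through
`ze δ (z_k, ψ z_k)`, `k` large, contains a point `p'` with `z_0 = 1`: `p' = lin (2δ) E` or
`p' = σ (lin (2δ) E)`, `σ ⟨z,y,x⟩ = ⟨z,-y,-x⟩` (`(orb d (σ q) M).y = ± (orb d q M).y`).  Slide from `v` to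
`(z_k, ψ z_k)`, change to stage `m`, slide to `p'`, change to the curve `lin` or `σ lin`. -/
def GEnd : Prop := ∀ (δ κ : ℝ) (θ : ℝ → ℝ) (d : ℕ → ℕ), Cx δ κ θ d → ∀ (n : ℕ) (v : ℝ × ℝ),
  At δ d n v → ∃ E : ℝ, Tr d (vc δ d n v) v.2 (fun s => borb d n (lin (2 * δ) s)) E

/-- **Invariance of the stable set under the shift**, in terms of zeros on the starting lines.
(from `exists_strip`, `GSw`, `GUnb`, `GDown`, `GEnd`).  (1) `lin (2δ) E` is in the stable set, so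
some `|z_n| < 1`, `n ≥ 1` (`z_0 = 1`): change to the vertical curve of stage `n`, `GDown` to stage
`1`, `GEnd`.  (2) similarly, for `borb d 1 (lin (2δ) E)`, `n ≥ 2`, `GDown` to stage `0`. -/
def GRel : Prop := ∀ (δ κ : ℝ) (θ : ℝ → ℝ) (d : ℕ → ℕ), Cx δ κ θ d →
  (∀ E : ℝ, Alive d (lin (2 * δ) E) →
    ∃ E', Tr d (lin (2 * δ)) E (fun s => borb d 1 (lin (2 * δ) s)) E') ∧
  (∀ E : ℝ, Alive (shd d 1) (lin (2 * δ) E) →
    ∃ E', Tr d (fun s => borb d 1 (lin (2 * δ) s)) E (lin (2 * δ)) E')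

/-! ### measures -/

/-- **Local transport of measures.**  Proof: for each `E0` there is a neighbourhood `V` with
`upDim (μ.restrict V) ≤ upDim ν` (then countably many `V` cover the line).  First case:
`μ V = 0`.  Second case: the measures
`π_m = (1/card (Z m)) ∑_{s ∈ Z m, |s - E0| < η} δ_{(s, h_m s)}` have a weakly convergent subsequence
(`exists_sub` in `W811/Dos/CP1.lean`; or add the missing mass at a far away point), with first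
marginal `≥ μ.restrict (E0-η, E0+η)`, second marginal `≤ C ν` (injectivity of `h_m`, bound of the
cardinalities), supported in pairs with `|s - s'| ≤ C |t - t'|`; see `TCp1`, `TCp2` (`cp1`, `cp2`) in
`W811/Dos/CP1.lean`, `CP2.lean`. -/
def GMeas : Prop := ∀ (Z W : ℕ → Finset ℝ) (μ ν : Measure ℝ) (B C0 : ℝ),
  IsProbabilityMeasure μ → IsProbabilityMeasure ν → (∀ m, (Z m).Nonempty) →
  (∀ m, ∀ x ∈ Z m, |x| ≤ B) → (∀ m, ∀ x ∈ W m, |x| ≤ B) →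
  (∀ m, ((W m).card : ℝ) ≤ C0 * (Z m).card) → Lim Z μ → Lim W ν →
  (∀ E0 : ℝ, (∃ η > 0, ∃ M0 : ℕ, ∀ M ≥ M0, ∀ s ∈ Z M, η ≤ |s - E0|) ∨
    (∃ C > 0, ∃ η > 0, ∃ M0 : ℕ, ∀ M ≥ M0, ∃ h : ℝ → ℝ, ∀ s ∈ Z M, |s - E0| < η →
      h s ∈ W M ∧ ∀ s' ∈ Z M, |s' - E0| < η → |s - s'| ≤ C * |h s - h s'|)) →
  upDim μ ≤ upDim ν

end Pool.Agent.H812.Gi
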