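import Mathlib
import Pool.Agent.H812.Gi.Spec
import Pool.Graph.R_seed8.Y16.ST.Dos

/-!
# Invariance of the dimension of the density of states under the Gauss map, from the parts
-/

set_option autoImplicit false

open Real Filter Topology Set MeasureTheory
open scoped ContDiff ENNReal

namespace Pool.Agent.H812.Gi

open Pool.Agent.W811.Stu Pool.Agent.H812.Tm Pool.Agent.W811.Dos Pool.Agent.W965.Stu

lemma shd_one (d : ℕ → ℕ) : shd d 1 = sh d 0 := by
  funext k; unfold shd sh; congr 1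

lemma zm_shift (d : ℕ → ℕ) (lam : ℝ) (m : ℕ) (t : ℝ) :
    ZM d (m + 2) (fun s => borb d 1 (lin lam s)) t ↔ (orb (shd d 1) (lin lam t) (m + 1)).y = 0 := by
  unfold ZM
  have e : m + 2 = 1 + (m + 1) := by omega
  rw [e, orb_add, orb_borb]
  rfl

lemma QQ_mono {a : ℕ → ℕ} (m : ℕ) : ∀ d : ℕ → ℕ, (∀ k, 1 ≤ d k) → a = shd d 1 →
    QQ a (m + 1) ≤ QQ d (m + 2) ∧ QQ a m ≤ QQ d (m + 1) := by
  induction m with
  | zero =>
    intro d hd ha
    have e1 : QQ a 1 = 1 := rfl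
    have e0 : QQ a 0 = 0 := rfl
    have := QQ_pos hd 1
    have := QQ_pos hd 0
    rw [zero_add, zero_add, e1, e0]
    exact ⟨by simpa using QQ_pos hd 1, Nat.zero_le _⟩
  | succ m ih =>
    intro d hd ha
    obtain ⟨h1, h2⟩ := ih d hd ha
    refine ⟨?_, h1⟩
    have e1 : QQ a (m + 1 + 1) = a m * QQ a (m + 1) + QQ a m := rfl
    have e2 : QQ d (m + 1 + 2) = d (m + 1) * QQ d (m + 2) + QQ d (m + 1) := rfl
    have e3 : a m = d (m + 1) := by rw [ha]; unfold shd; rw [add_comm]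
    rw [e1, e2, e3]
    exact Nat.add_le_add (Nat.mul_le_mul_left _ h1) h2

/-- from the relations to the inequality of the dimensions -/
theorem local_of {lam : ℝ} (hlam : 0 < lam) {d : ℕ → ℕ} (hd : ∀ k, 1 ≤ d k) {c c' : ℝ → P3}
    (Z W : ℕ → Finset ℝ) (hZ : ∀ m s, s ∈ Z m ↔ ZM d (m + 2) c s)
    (hW : ∀ m s, s ∈ W m ↔ ZM d (m + 2) c' s) (E0 : ℝ) (h : ∃ t0, Tr d c E0 c' t0) :
    ∃ C > 0, ∃ η > 0, ∃ M0 : ℕ, ∀ M ≥ M0, ∃ h : ℝ → ℝ, ∀ s ∈ Z M, |s - E0| < η →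
      h s ∈ W M ∧ ∀ s' ∈ Z M, |s' - E0| < η → |s - s'| ≤ C * |h s - h s'| := by
  obtain ⟨t0, C, hC, h⟩ := h
  obtain ⟨η, hη, M0, h⟩ := h 1 one_pos
  refine ⟨C, hC, η, hη, M0, fun M hM => ?_⟩
  obtain ⟨g, hg⟩ := h (M + 2) (by omega)
  refine ⟨g, fun s hs hs0 => ?_⟩
  obtain ⟨h1, h2, h3⟩ := hg s hs0 ((hZ M s).1 hs)
  refine ⟨(hW M _).2 h2, fun s' hs' hs0' => h3 s' hs0' ((hZ M s').1 hs')⟩

/-- **Invariance** of the dimension of the limits of the zero counting measures -/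
theorem inv_lim (hRel : GRel) (hMeas : GMeas) {lam : ℝ} (hlam : 0 < lam) {α : ℝ}
    (hα : Irrational α) (h0 : 0 < α) (h1 : α < 1) {μ ν : Measure ℝ}
    (hμ : IsProbabilityMeasure μ) (hν : IsProbabilityMeasure ν)
    (hLμ : Lim (fun m => zs lam m (dig α)) μ) (hLν : Lim (fun m => zs lam m (dig (gauss α))) ν) :
    upDim μ = upDim ν := by
  obtain ⟨b1, b2, b3⟩ := gauss_good hα h0 h1
  set β := gauss α with hβ
  set d := dig α with hd
  have hd1 : ∀ k, 1 ≤ d k := fun k => dig_pos hα h0 h1 k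
  have hb1 : ∀ k, 1 ≤ dig β k := fun k => dig_pos b1 b2 b3 k
  have hsh : shd d 1 = dig β := by
    rw [shd_one, sh_dig]; rfl
  have hδ : lam / 2 ≠ 0 := by positivity
  have hcc := one_lt_cc hδ
  have hκ1 : 1 < (1 + cc (lam / 2)) / 2 := by linarith
  have hκ : (1 + cc (lam / 2)) / 2 < cc (lam / 2) := by linarith
  obtain ⟨θ, hθ⟩ := exists_cut hκ1
  have hcx : Cx (lam / 2) ((1 + cc (lam / 2)) / 2) θ d := ⟨hδ, hκ1, hκ, hθ, hd1⟩
  obtain ⟨r1, r2⟩ := hRel _ _ _ _ hcx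
  have e2 : 2 * (lam / 2) = lam := by ring
  rw [e2] at r1 r2
  have hZ : ∀ m, 1 ≤ m → (∀ E, E ∈ zs lam m d ↔ (orb d (lin lam E) m).y = 0) ∧
      (zs lam m d).card = QQ d (m + 1) ∧ ∀ E ∈ zs lam m d, |E| ≤ 2 + lam :=
    fun m hm => Pool.Agent.W688.Dos.zc lam hlam α hα h0 h1 m hm
  have hW : ∀ m, 1 ≤ m → (∀ E, E ∈ zs lam m (dig β) ↔ (orb (dig β) (lin lam E) m).y = 0) ∧
      (zs lam m (dig β)).card = QQ (dig β) (m + 1) ∧ ∀ E ∈ zs lam m (dig β), |E| ≤ 2 + lam :=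
    fun m hm => Pool.Agent.W688.Dos.zc lam hlam β b1 b2 b3 m hm
  have hZ' : ∀ m s, s ∈ zs lam (m + 2) d ↔ ZM d (m + 2) (lin lam) s := fun m s =>
    (hZ (m + 2) (by omega)).1 s
  have hW' : ∀ m s, s ∈ zs lam (m + 1) (dig β) ↔
      ZM d (m + 2) (fun s => borb d 1 (lin lam s)) s := fun m s => by
    rw [zm_shift, hsh]
    exact (hW (m + 1) (by omega)).1 s
  have hLμ' : Lim (fun m => zs lam (m + 2) d) μ := fun g hg =>
    (hLμ g hg).comp (tendsto_add_atTop_nat 2)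
  have hLν' : Lim (fun m => zs lam (m + 1) (dig β)) ν := fun g hg =>
    (hLν g hg).comp (tendsto_add_atTop_nat 1)
  -- points outside of the spectrum
  have hout : ∀ (e : ℕ → ℕ), (∀ k, 1 ≤ e k) → ∀ E0 : ℝ, ¬ Alive e (lin lam E0) →
      ∃ η > 0, ∃ M0 : ℕ, ∀ M ≥ M0, ∀ s, (orb e (lin lam s) M).y = 0 → η ≤ |s - E0| := by
    intro e he E0 hE
    by_contra hcon
    apply hE
    refine Pool.Agent.W811.Dos.tLs lam hlam e he E0 fun ε hε N => ?_
    push Not at hcon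
    obtain ⟨M, hM, s, hs, hs2⟩ := hcon ε hε N
    exact ⟨M, hM, s, hs2, by rw [hs]; norm_num⟩
  apply le_antisymm
  · refine hMeas (fun m => zs lam (m + 2) d) (fun m => zs lam (m + 1) (dig β)) μ ν (2 + lam) 1
      hμ hν (fun m => ?_) (fun m => (hZ (m + 2) (by omega)).2.2)
      (fun m => (hW (m + 1) (by omega)).2.2) (fun m => ?_) hLμ' hLν' (fun E0 => ?_)
    · rw [← Finset.card_pos, (hZ (m + 2) (by omega)).2.1]
      exact QQ_pos hd1 _
    · rw [(hZ (m + 2) (by omega)).2.1, (hW (m + 1) (by omega)).2.1, one_mul]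
      have := (QQ_mono (a := dig β) (m + 1) d hd1 hsh.symm).1
      exact_mod_cast this
    · by_cases hE : Alive d (lin lam E0)
      · right
        exact local_of hlam hd1 _ _ hZ' hW' E0 (r1 E0 hE)
      · left
        obtain ⟨η, hη, M0, h⟩ := hout d hd1 E0 hE
        exact ⟨η, hη, M0, fun M hM s hs => h (M + 2) (by omega) s
          (((hZ (M + 2) (by omega)).1 s).1 hs)⟩
  · obtain ⟨C, hC⟩ := Pool.Agent.W811.Dos.tQq d 0 hd1
    refine hMeas (fun m => zs lam (m + 1) (dig β)) (fun m => zs lam (m + 2) d) ν μ (2 + lam) C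
      hν hμ (fun m => ?_) (fun m => (hW (m + 1) (by omega)).2.2)
      (fun m => (hZ (m + 2) (by omega)).2.2) (fun m => ?_) hLν' hLμ' (fun E0 => ?_)
    · rw [← Finset.card_pos, (hW (m + 1) (by omega)).2.1]
      exact QQ_pos hb1 _
    · rw [(hZ (m + 2) (by omega)).2.1, (hW (m + 1) (by omega)).2.1]
      have := hC (m + 1)
      rw [← shd_one, hsh] at this
      have e : 0 + 1 + (m + 1) + 1 = m + 2 + 1 := by omega
      rw [e] at this
      exact_mod_cast this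
    · by_cases hE : Alive (shd d 1) (lin lam E0)
      · right
        exact local_of hlam hd1 _ _ hW' hZ' E0 (r2 E0 hE)
      · left
        obtain ⟨η, hη, M0, h⟩ := hout (shd d 1) (fun k => hd1 _) E0 hE
        exact ⟨η, hη, M0, fun M hM s hs => h (M + 1) (by omega) s (by
          rw [hsh]; exact ((hW (M + 1) (by omega)).1 s).1 hs)⟩

/-- **Invariance** of the dimension of the density of states -/
theorem inv_of (hRel : GRel) (hMeas : GMeas) {lam : ℝ} (hlam : 0 < lam) {α : ℝ}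
    (hα : Irrational α) (h0 : 0 < α) (h1 : α < 1) {μ ν : Measure ℝ}
    (hμ : IsDOS lam α μ) (hν : IsDOS lam (gauss α) ν) : upDim ν = upDim μ := by
  have hdos : TDos := (Pool.Agent.W672.Dos.dos Pool.Agent.W247.Dos.tr Pool.Agent.W688.Dos.wl
    Pool.Agent.W688.Dos.zc tQf Pool.Agent.W247.Dos.lm)
  obtain ⟨b1, b2, b3⟩ := gauss_good hα h0 h1
  obtain ⟨μ', k1, k2, k3⟩ := hdos lam hlam α hα h0 h1
  obtain ⟨ν', l1, l2, l3⟩ := hdos lam hlam (gauss α) b1 b2 b3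
  have e1 := k2 μ hμ
  have e2 := l2 ν hν
  subst e1 e2
  exact (inv_lim hRel hMeas hlam hα h0 h1 k1.1 l1.1 k3 l3).symm

end Pool.Agent.H812.Gi
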