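import Mathlib
import Pool.Agent.H812.Gi.Asm1
import Pool.Agent.H812.Tm.Fin
import Pool.Agent.H233.GiGGap
import Pool.Agent.H747.GiSLIDE
import Pool.Agent.H591.GiUnb
import Pool.Agent.H549.GiTv
import Pool.Agent.H935.GiGNEAR
import Pool.Agent.H553.GiLevels
import Pool.Agent.H696.GiHIT
import Pool.Agent.H251.GiGSy
import Pool.Agent.H400.Gi.GCab
import Pool.Agent.H100.GiDown
import Pool.Agent.H249.GiEnd
import Pool.Agent.H21.GiMEAS

/-!
# Invariance of the dimension of the density of states under the Gauss map: all parts together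
-/

set_option autoImplicit false

open Real Filter Topology Set MeasureTheory
open scoped ContDiff ENNReal

namespace Pool.Agent.H812.Gi

open Pool.Agent.W811.Stu Pool.Agent.H812.Tm Pool.Agent.W811.Dos Pool.Agent.W965.Stu

theorem fMeas : GMeas := Pool.Agent.H21.GiMeas.tGMeas

theorem fNear : GNear := Pool.Agent.H935.Gi.tGNear pTerm pSlT pPair pLag pSlope pLow pRun pBr pAl
  pWin pDt pRG

theorem fGap : GGap := Pool.Agent.H233.Gi.tGGap pLag pDt pCoord

theorem fLevels : GLevels := Pool.Agent.H553.Gi.tLevels fNear fGap pField pDt pCoord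

theorem fSlide : GSlide := Pool.Agent.H747.GiSlide.tSLIDE fLevels

theorem fUnb : GUnb := Pool.Agent.H591.GiUnb.tGUnb pLow pDt

theorem fTv : GTv := Pool.Agent.H549.GiTv.tGTv pCoord pEsc pLip

theorem fHit : GHit := Pool.Agent.H696.GiHIT.tHIT pField pCoord fTv

theorem fSy : GSy := Pool.Agent.H251.GiGSy.tGSy pField pDt pCoord

theorem rel_of (hSw : GSw) (hW : GWind) : GRel := by
  have hCa : GCa := Pool.Agent.H400.Gi.tGCa hW fTv pCoord pDt
  have hCb : GCb := Pool.Agent.H400.Gi.tGCb hW
  have hDown : GDown := Pool.Agent.H100.Gi.tGDown hCa hCb fSlide hSw fUnb pLeaf pEsc pCoord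
  have hEnd : GEnd := Pool.Agent.H249.GiEnd.tEnd fSlide hSw fUnb fHit pLeaf pEsc pCoord
  exact Pool.Agent.H100.Gi.tGRel hDown hEnd hSw fUnb pEsc pCoord

end Pool.Agent.H812.Gi
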