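import Mathlib
import Pool.Agent.H812.Gi.Fin0
import Pool.Agent.H551.GiSw
import Pool.Agent.H658.GiWind

/-!
# Invariance of the dimension of the density of states under the Gauss map: all parts together
-/

set_option autoImplicit false

open Real Filter Topology Set MeasureTheory
open scoped ContDiff ENNReal

namespace Pool.Agent.H812.Gi

open Pool.Agent.W811.Stu Pool.Agent.H812.Tm Pool.Agent.W811.Dos Pool.Agent.W965.Stu

theorem fSw : GSw := Pool.Agent.H551.GiSw.tGSw fLevels pField pLip pCoord pDt

theorem fWind : GWind := Pool.Agent.H658.tGWind fSy pCoord pDt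

theorem fRel : GRel := rel_of fSw fWind

end Pool.Agent.H812.Gi
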